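import Mathlib

set_option autoImplicit false

namespace Pool.Agent.Results.MP_b358a5_co.Proof

open MvPolynomial

abbrev R : Type := MvPolynomial ℕ ℕ

def P (d : ℕ) : Set R := {f | f ≠ 0 ∧ constantCoeff f = 0 ∧ ∀ n, degreeOf n f ≤ d}

def IsCopy {m k : ℕ} (S : Set R) (F : Fin k → MvPolynomial (Fin m) ℕ) (a : Fin m → R) : Prop :=
  (∀ t, a t ∈ S) ∧ ∀ l, aeval a (F l) ∈ S

def Mono {m k r : ℕ} (c : R → Fin r) (F : Fin k → MvPolynomial (Fin m) ℕ) (a : Fin m → R) : Prop :=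
  ∀ l l', c (aeval a (F l)) = c (aeval a (F l'))

noncomputable def pat (i : ℕ) : Fin 4 → MvPolynomial (Fin 4) ℕ :=
  ![X 0 ^ i * X 1 * X 3, (X 0 + X 1) * X 2, 2 * (X 0 * X 2), 2 * (X 1 * X 2)]

lemma ev (i : ℕ) (a : Fin 4 → R) : aeval a (pat i 0) = a 0 ^ i * a 1 * a 3 ∧
    aeval a (pat i 1) = (a 0 + a 1) * a 2 ∧ aeval a (pat i 2) = 2 * (a 0 * a 2) ∧
    aeval a (pat i 3) = 2 * (a 1 * a 2) := by
  simp [pat, map_ofNat]

lemma mono_mem (d e : ℕ) (s : ℕ →₀ ℕ) (he : e ≠ 0) (hs : s ≠ 0) (h : ∀ n, s n ≤ d) :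
    monomial s e ∈ P d :=
  ⟨by simpa using he, by simp [constantCoeff_monomial, hs],
    fun n => by rw [degreeOf_monomial_eq _ _ he]; exact h n⟩

lemma two_mem (d e p q a b : ℕ) (he : e ≠ 0) (hpq : p ≠ q) (ha : a ≤ d) (hb : b ≤ d)
    (h0 : 0 < a + b) : (C e * (X p ^ a * X q ^ b) : R) ∈ P d := by
  rw [X_pow_eq_monomial, X_pow_eq_monomial, monomial_mul, C_mul_monomial]
  refine mono_mem d _ _ (by simpa using he) (fun h => ?_) fun n => ?_
  · have h1 := DFunLike.congr_fun h p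
    have h2 := DFunLike.congr_fun h q
    simp [hpq, hpq.symm] at h1 h2
    omega
  · simp only [Finsupp.add_apply, Finsupp.single_apply]
    split_ifs <;> omega

lemma add_mem' (d : ℕ) (f g : R) (hf : f ∈ P d) (hg : g ∈ P d) : f + g ∈ P d := by
  refine ⟨fun h => hf.1 ?_, by simp [hf.2.1, hg.2.1], fun n =>
    (degreeOf_add_le n f g).trans (max_le (hf.2.2 n) (hg.2.2 n))⟩
  ext s
  have := congrArg (coeff s) h
  simp only [coeff_add, coeff_zero] at this ⊢
  omega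

lemma appears (i : ℕ) (hi : 1 ≤ i) : IsCopy (P i) (pat i) ![X 0, X 1, X 2, X 3] := by
  obtain ⟨e0, e1, e2, e3⟩ := ev i ![X 0, X 1, X 2, X 3]
  constructor
  · have : ∀ n, (X n : R) ∈ P i := fun n => by
      simpa using two_mem i 1 n (n + 1) 1 0 (by omega) (by omega) hi (by omega) (by omega)
    intro t; fin_cases t <;> exact this _
  · have t : ∀ e p q, e ≠ 0 → p ≠ q → (C e * (X p * X q) : R) ∈ P i := fun e p q a b => by
      simpa using two_mem i e p q 1 1 a b hi hi (by omega)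
    intro l; fin_cases l
    · refine e0 ▸ ?_
      have : (X 0 ^ i * X 1 * X 3 : R) = monomial (Finsupp.single 0 i + Finsupp.single 1 1 +
          Finsupp.single 3 1) 1 := by
        rw [X_pow_eq_monomial, X, X, monomial_mul, monomial_mul]; simp
      simp only [Matrix.cons_val_zero, Matrix.cons_val_one, Matrix.cons_val]
      rw [this]
      refine mono_mem i _ _ one_ne_zero (fun h => ?_) fun n => ?_
      · simpa using DFunLike.congr_fun h 1
      · simp only [Finsupp.add_apply, Finsupp.single_apply]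
        split_ifs <;> omega
    · refine e1 ▸ ?_
      simpa [add_mul] using add_mem' i _ _ (t 1 0 2 (by omega) (by omega)) (t 1 1 2 (by omega) (by omega))
    · exact e2 ▸ t 2 0 2 (by omega) (by omega)
    · exact e3 ▸ t 2 1 2 (by omega) (by omega)

lemma vdw (r : ℕ) : ∃ N : ℕ, ∀ χ : ℕ → Fin r, ∃ a d, 0 < a ∧ 0 < d ∧ a + 3 * d ≤ N ∧
    ∀ t : Fin 4, χ (a + t * d) = χ a := by
  classical
  obtain ⟨ι, _, h⟩ := Combinatorics.Line.exists_mono_in_high_dimension (Fin 4) (Fin r)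
  refine ⟨1 + Fintype.card ι * 3, fun χ => ?_⟩
  obtain ⟨l, c, hl⟩ := h fun v => χ (1 + ∑ i, (v i).val)
  have s : ∀ t : Fin 4, ∑ i, (l t i).val = ∑ i, (l 0 i).val +
      t * (Finset.univ.filter fun i => l.idxFun i = none).card := by
    intro t
    rw [Finset.card_filter, Finset.mul_sum, ← Finset.sum_add_distrib]
    refine Finset.sum_congr rfl fun i _ => ?_
    rw [l.apply_def, l.apply_def]
    cases h : l.idxFun i <;> simp [h]
  refine ⟨1 + ∑ i, (l 0 i).val, (Finset.univ.filter fun i => l.idxFun i = none).card, by omega,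
    ?_, ?_, fun t => ?_⟩
  · obtain ⟨i, hi⟩ := l.proper
    exact Finset.card_pos.2 ⟨i, by simp [hi]⟩
  · have h3 := s 3
    have : ∑ i, (l 3 i).val ≤ Fintype.card ι * 3 := by
      simpa using Finset.sum_le_card_nsmul Finset.univ (fun i => (l 3 i).val) 3
        fun i _ => by omega
    have e : ((3 : Fin 4) : ℕ) = 3 := rfl
    rw [e] at h3
    omega
  · rw [add_assoc, ← s t]; exact (hl t).trans (hl 0).symm

lemma pr (i j : ℕ) (hij : i < j) (r : ℕ) (c : R → Fin r) : ∃ a, IsCopy (P j) (pat i) a ∧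
    Mono c (pat i) a ∧ Function.Injective fun l => aeval a (pat i l) := by
  obtain ⟨N, hN⟩ := vdw r
  obtain ⟨M, hM⟩ : ∃ M, M = N.factorial ^ (i + 1) := ⟨_, rfl⟩
  have M0 : 0 < M := hM ▸ pow_pos N.factorial_pos _
  obtain ⟨a, d, a0, d0, hle, h⟩ := hN fun n => c (C (2 * n * M) * (X 0 ^ (i + 1) * X 1 ^ 1))
  obtain ⟨q, hq⟩ : a ^ i * (a + 2 * d) ∣ M := by
    rw [hM, pow_succ]
    exact mul_dvd_mul (pow_dvd_pow_of_dvd (Nat.dvd_factorial a0 (by omega)) i)
      (Nat.dvd_factorial (by omega) (by omega))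
  have q0 : q ≠ 0 := by rintro rfl; simp at hq; omega
  obtain ⟨v, hv⟩ : ∃ v : Fin 4 → R, v = ![C a * (X 0 ^ 1 * X 1 ^ 0), C (a + 2 * d) * (X 0 ^ 1 * X 1 ^ 0),
    C M * (X 0 ^ i * X 1 ^ 1), C (2 * (a + 3 * d) * q) * (X 0 ^ 0 * X 1 ^ 1)] := ⟨_, rfl⟩
  have e : ∀ l, aeval v (pat i l) =
      C (2 * (a + (![3, 1, 0, 2] l : Fin 4) * d) * M) * (X 0 ^ (i + 1) * X 1 ^ 1) := by
    obtain ⟨e0, e1, e2, e3⟩ := ev i v
    intro l; fin_cases l
    · refine e0.trans ?_
      simp [hv, hq, mul_pow]; ring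
    · refine e1.trans ?_
      simp [hv]; ring
    · refine e2.trans ?_
      simp [hv]; ring
    · refine e3.trans ?_
      simp [hv]; ring
  refine ⟨v, ⟨fun t => ?_, fun l => ?_⟩, fun l l' => ?_, fun l l' hl => ?_⟩
  · rw [hv]
    fin_cases t <;> refine two_mem j _ 0 1 _ _ ?_ (by omega) (by omega) (by omega) (by omega) <;>
      positivity
  · rw [e]
    exact two_mem j _ 0 1 _ _ (by positivity) (by omega) (by omega) (by omega) (by omega)
  · rw [e, e]; exact (h _).trans (h _).symm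
  · simp only [e] at hl
    have h1 := congrArg (eval fun _ => 1) hl
    simp only [map_mul, eval_C, map_pow, eval_X, one_pow, mul_one] at h1
    have h2 := Nat.eq_of_mul_eq_mul_right d0 (Nat.add_left_cancel
      (Nat.eq_of_mul_eq_mul_left two_pos (Nat.eq_of_mul_eq_mul_right M0 h1)))
    exact (by decide : ∀ l l' : Fin 4, ((![3, 1, 0, 2] l : Fin 4) : ℕ) =
      ((![3, 1, 0, 2] l' : Fin 4) : ℕ) → l = l') l l' h2

noncomputable def toZ : R →+* MvPolynomial ℕ ℤ := map (Nat.castRingHom ℤ)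

noncomputable def nu (f : R) : ℕ := multiplicity (C 2 : MvPolynomial ℕ ℤ) (toZ f)

lemma p2 : Prime (C 2 : MvPolynomial ℕ ℤ) := (prime_C_iff ℕ).2 Int.prime_two

lemma le_nu (f : R) (hf : f ≠ 0) (k : ℕ) : k ≤ nu f ↔ ∀ s, 2 ^ k ∣ coeff s f := by
  have h : toZ f ≠ 0 := fun h => hf (map_injective _ Nat.cast_injective (h.trans (map_zero _).symm))
  rw [nu, ← (FiniteMultiplicity.of_prime_left p2 h).pow_dvd_iff_le_multiplicity, ← map_pow,
    C_dvd_iff_dvd_coeff]
  refine forall_congr' fun s => ?_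
  rw [toZ, coeff_map]
  have := Int.natCast_dvd_natCast (m := 2 ^ k) (n := coeff s f)
  rwa [Nat.cast_pow] at this

lemma nu_mul (f g : R) (hf : f ≠ 0) (hg : g ≠ 0) : nu (f * g) = nu f + nu g := by
  have h : toZ (f * g) ≠ 0 := fun h => mul_ne_zero hf hg
    (map_injective _ Nat.cast_injective (h.trans (map_zero _).symm))
  unfold nu
  rw [map_mul] at h ⊢
  exact multiplicity_mul p2 (FiniteMultiplicity.of_prime_left p2 h)

lemma nu_two : nu 2 = 1 := by
  have : toZ 2 = C 2 := (map_ofNat toZ 2).trans (map_ofNat C 2).symm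
  rw [nu, this]
  exact multiplicity_self

lemma nu_add (f g : R) (hf : f ≠ 0) (hg : g ≠ 0) (h : ∀ s, coeff s f = 0 ∨ coeff s g = 0) :
    nu (f + g) = min (nu f) (nu g) := by
  have hfg : f + g ≠ 0 := fun e => hf (by
    ext s
    have := congrArg (coeff s) e
    simp only [coeff_add, coeff_zero] at this ⊢
    omega)
  refine eq_of_forall_le_iff fun k => ?_
  rw [le_min_iff, le_nu _ hfg, le_nu _ hf, le_nu _ hg, ← forall_and]
  refine forall_congr' fun s => ?_
  rw [coeff_add]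
  rcases h s with e | e <;> simp [e]

lemma not_pr (i : ℕ) : ∃ c : R → Fin 2, ∀ a, IsCopy (P i) (pat i) a → ¬ Mono c (pat i) a := by
  refine ⟨fun f => ⟨nu f % 2, by omega⟩, fun a ⟨ha, hv⟩ hm => ?_⟩
  obtain ⟨e0, e1, e2, e3⟩ := ev i a
  have h0 := (ha 0).1
  have h1 := (ha 1).1
  have h2 := (ha 2).1
  have dj : ∀ s, coeff s (a 0) = 0 ∨ coeff s (a 1) = 0 := by
    intro s
    by_contra hc
    push Not at hc
    have s0 : s ≠ 0 := by
      rintro rfl
      exact hc.1 (ha 0).2.1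
    obtain ⟨n, hn⟩ := Finsupp.ne_iff.1 s0
    have b0 := monomial_le_degreeOf n (mem_support_iff.2 hc.1)
    have b1 := monomial_le_degreeOf n (mem_support_iff.2 hc.2)
    have b := (hv 0).2.2 n
    rw [e0, degreeOf_mul_eq (mul_ne_zero (pow_ne_zero _ h0) h1) (ha 3).1,
      degreeOf_mul_eq (pow_ne_zero _ h0) h1, degreeOf_pow_eq _ _ _ h0] at b
    simp only [Finsupp.coe_zero, Pi.zero_apply] at hn
    have : i * 1 ≤ i * degreeOf n (a 0) := Nat.mul_le_mul_left _ (by omega)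
    omega
  have t : (2 : R) ≠ 0 := by
    have := map_ofNat (C : ℕ →+* R) 2
    rw [← this]; simp
  have m1 := congrArg Fin.val (hm 1 2)
  have m2 := congrArg Fin.val (hm 1 3)
  have hs : a 0 + a 1 ≠ 0 := fun e => (hv 1).1 (by rw [e1, e, zero_mul])
  simp only [e1, e2, e3, nu_mul _ _ hs h2, nu_add _ _ h0 h1 dj, nu_mul _ _ t (mul_ne_zero h0 h2),
    nu_mul _ _ t (mul_ne_zero h1 h2), nu_mul _ _ h0 h2, nu_mul _ _ h1 h2, nu_two] at m1 m2
  omega

theorem result (i j : ℕ) (hi : 1 ≤ i) (hij : i < j) :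
    ∃ (m k : ℕ) (F : Fin k → MvPolynomial (Fin m) ℕ), (∀ l, constantCoeff (F l) = 0) ∧
      (∃ a, IsCopy (P i) F a) ∧
      (∀ (r : ℕ) (c : R → Fin r), ∃ a, IsCopy (P j) F a ∧ Mono c F a ∧
        Function.Injective fun l => aeval a (F l)) ∧
      ¬ ∀ (r : ℕ) (c : R → Fin r), ∃ a, IsCopy (P i) F a ∧ Mono c F a := by
  refine ⟨4, 4, pat i, fun l => ?_, ⟨_, appears i hi⟩, pr i j hij, fun h => ?_⟩
  · fin_cases l <;> simp [pat]
  · obtain ⟨c, hc⟩ := not_pr i
    obtain ⟨a, h1, h2⟩ := h 2 c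
    exact hc a h1 h2

end Pool.Agent.Results.MP_b358a5_co.Proof
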